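import Mathlib

/-!
# Pseudocompact and selectively pseudocompact spaces: definitions
-/

set_option autoImplicit false

universe u

namespace Pool.Agent.Q307.SPB

/-- `X` is pseudocompact: every continuous real valued function on `X` is bounded. -/
def Pseudocompact (X : Type u) [TopologicalSpace X] : Prop :=
  ∀ f : X → ℝ, Continuous f → ∃ C : ℝ, ∀ x, |f x| ≤ C

/-- `X` is selectively pseudocompact: for every sequence of nonempty open sets one can choose
points in them so that the sequence of points has an accumulation point. -/
def SelectivelyPseudocompact (X : Type u) [TopologicalSpace X] : Prop :=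
  ∀ U : ℕ → Set X, (∀ n, IsOpen (U n) ∧ (U n).Nonempty) →
    ∃ x : ℕ → X, (∀ n, x n ∈ U n) ∧
      ∃ y : X, ∀ W : Set X, IsOpen W → y ∈ W → {n | x n ∈ W}.Infinite

end Pool.Agent.Q307.SPB
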