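import Pool.Agent.Q307.SPB.Defs

/-!
# Pseudocompact spaces are feebly compact; infinite pseudocompact groups have size at least `𝔠`
-/

set_option autoImplicit false

universe u v

namespace Pool.Agent.Q307.SPB

open Topology Filter Set Cardinal

/-- Every sequence of nonempty open sets has an accumulation point. -/
def Feebly (X : Type u) [TopologicalSpace X] : Prop :=
  ∀ U : ℕ → Set X, (∀ n, IsOpen (U n) ∧ (U n).Nonempty) →
    ∃ x : X, ∀ W : Set X, IsOpen W → x ∈ W → {n | (W ∩ U n).Nonempty}.Infinite

theorem feebly_of_pseudocompact {X : Type u} [TopologicalSpace X] [CompletelyRegularSpace X]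
    (hX : Pseudocompact X) : Feebly X := by
  classical
  intro U hU
  by_contra hcon
  push Not at hcon
  choose x hx using fun n => (hU n).2
  have hf : ∀ n, ∃ f : X → unitInterval, Continuous f ∧ f (x n) = 0 ∧ EqOn f 1 (U n)ᶜ := fun n =>
    CompletelyRegularSpace.completely_regular (x n) (U n)ᶜ ((hU n).1.isClosed_compl)
      (fun h => h (hx n))
  choose f hfc hf0 hf1 using hf
  have hloc : LocallyFinite fun n : ℕ => Function.support fun y : X => (n : ℝ) * (1 - (f n y : ℝ)) := by
    intro y
    obtain ⟨W, hW, hyW, hfin⟩ := hcon y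
    refine ⟨W, hW.mem_nhds hyW, hfin.subset ?_⟩
    rintro n ⟨z, hz1, hz2⟩
    refine ⟨z, hz2, ?_⟩
    by_contra hzU
    apply hz1
    have := hf1 n (show z ∈ (U n)ᶜ from hzU)
    show (n : ℝ) * (1 - (f n z : ℝ)) = 0
    rw [this]
    simp
  have hcont : Continuous fun y : X => ∑ᶠ n : ℕ, (n : ℝ) * (1 - (f n y : ℝ)) := by
    refine continuous_finsum (fun n => ?_) hloc
    exact continuous_const.mul (continuous_const.sub (continuous_subtype_val.comp (hfc n)))
  obtain ⟨C, hC⟩ := hX _ hcont
  obtain ⟨n, hn⟩ := exists_nat_gt C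
  have h1 := hC (x n)
  have h2 : (n : ℝ) ≤ ∑ᶠ m : ℕ, (m : ℝ) * (1 - (f m (x n) : ℝ)) := by
    have hfs : (Function.support fun m : ℕ => (m : ℝ) * (1 - (f m (x n) : ℝ))).Finite := by
      refine (hloc.point_finite (x n)).subset ?_
      intro m hm
      exact hm
    have h3 := single_le_finsum n hfs (fun m => by
      have := (f m (x n)).2.2
      have h5 : (0 : ℝ) ≤ 1 - (f m (x n) : ℝ) := by linarith
      positivity)
    refine le_trans ?_ h3
    rw [hf0]
    simp
  have h3 := le_abs_self (∑ᶠ m : ℕ, (m : ℝ) * (1 - (f m (x n) : ℝ)))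
  linarith

/-- In a feebly compact space decreasing sequences of open sets have a common point of the
closures. -/
theorem exists_mem_closure {X : Type u} [TopologicalSpace X] (hX : Feebly X) (U : ℕ → Set X)
    (hU : ∀ n, IsOpen (U n) ∧ (U n).Nonempty) (hanti : Antitone U) :
    ∃ x, ∀ n, x ∈ closure (U n) := by
  obtain ⟨x, hx⟩ := hX U hU
  refine ⟨x, fun n => ?_⟩
  rw [mem_closure_iff]
  intro W hW hxW
  obtain ⟨m, hm, hnm⟩ := (hx W hW hxW).exists_gt n
  obtain ⟨z, hz1, hz2⟩ := hm
  exact ⟨z, hz1, hanti hnm.le hz2⟩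

theorem split {X : Type u} [TopologicalSpace X] [T3Space X] (hiso : ∀ x : X, ¬ IsOpen {x})
    (U : Set X) (hU : IsOpen U ∧ U.Nonempty) : ∃ A : Bool → Set X,
    (∀ b, IsOpen (A b) ∧ (A b).Nonempty) ∧ (∀ b, A b ⊆ U) ∧
    Disjoint (closure (A true)) (closure (A false)) := by
  obtain ⟨x, hx⟩ := hU.2
  have hne : ∃ y ∈ U, y ≠ x := by
    by_contra hcon
    push Not at hcon
    apply hiso x
    have : U = {x} := Subset.antisymm (fun y hy => hcon y hy) (singleton_subset_iff.mpr hx)
    rw [← this]
    exact hU.1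
  obtain ⟨y, hy, hyx⟩ := hne
  obtain ⟨V, hyV, hV, W, hxW, hW, hd⟩ := exists_open_nhds_disjoint_closure hyx
  refine ⟨fun b => if b then V ∩ U else W ∩ U, fun b => ?_, fun b => ?_, ?_⟩
  · cases b
    · exact ⟨hW.inter hU.1, ⟨x, hxW, hx⟩⟩
    · exact ⟨hV.inter hU.1, ⟨y, hyV, hy⟩⟩
  · cases b
    · exact inter_subset_right
    · exact inter_subset_right
  · exact hd.mono (closure_mono inter_subset_left) (closure_mono inter_subset_left)

/-- A feebly compact regular space without isolated points has at least `𝔠` points. -/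
theorem continuum_le {X : Type u} [TopologicalSpace X] [T3Space X] [Nonempty X]
    (hX : Feebly X) (hiso : ∀ x : X, ¬ IsOpen {x}) : 𝔠 ≤ #X := by
  classical
  choose A hA1 hA2 hA3 using fun U : {U : Set X // IsOpen U ∧ U.Nonempty} => split hiso U.1 U.2
  let step : {U : Set X // IsOpen U ∧ U.Nonempty} → Bool → {U : Set X // IsOpen U ∧ U.Nonempty} :=
    fun U b => ⟨A U b, hA1 U b⟩
  let p : (ℕ → Bool) → ℕ → {U : Set X // IsOpen U ∧ U.Nonempty} := fun f n =>
    Nat.rec ⟨univ, isOpen_univ, univ_nonempty⟩ (fun k U => step U (f k)) n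
  have hp : ∀ f n, p f (n + 1) = step (p f n) (f n) := fun f n => rfl
  have hanti : ∀ f, Antitone fun n => (p f n).1 := fun f =>
    antitone_nat_of_succ_le fun n => by
      rw [hp]
      exact hA2 _ _
  have hpt : ∀ f : ℕ → Bool, ∃ x, ∀ n, x ∈ closure (p f n).1 := fun f =>
    exists_mem_closure hX _ (fun n => (p f n).2) (hanti f)
  choose g hg using hpt
  have hag : ∀ f f' : ℕ → Bool, ∀ n, (∀ k < n, f k = f' k) → p f n = p f' n := by
    intro f f' n
    induction n with
    | zero => intro _; rfl
    | succ n ih =>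
      intro h
      rw [hp, hp, ih (fun k hk => h k (by omega)), h n (by omega)]
  have hinj : Function.Injective g := by
    intro f f' hff
    by_contra hne
    have hex : ∃ n, f n ≠ f' n := by
      by_contra hcon
      push Not at hcon
      exact hne (funext hcon)
    set n := Nat.find hex with hn
    have h1 : f n ≠ f' n := Nat.find_spec hex
    have h2 : ∀ k < n, f k = f' k := fun k hk => not_not.mp (Nat.find_min hex hk)
    have h3 := hag f f' n h2
    have h4 := hg f (n + 1)
    have h5 := hg f' (n + 1)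
    rw [hp] at h4 h5
    rw [← h3, ← hff] at h5
    have h6 : Disjoint (closure (A (p f n) (f n))) (closure (A (p f n) (f' n))) := by
      cases h7 : f n <;> cases h8 : f' n
      · exact absurd (h7.trans h8.symm) h1
      · exact (hA3 _).symm
      · exact hA3 _
      · exact absurd (h7.trans h8.symm) h1
    exact disjoint_left.mp h6 h4 h5
  have h1 := mk_le_of_injective (f := fun f : ULift.{u} (ℕ → Bool) => g f.down)
    (fun a b h => ULift.down_injective (hinj h))
  refine le_trans (le_of_eq ?_) h1
  rw [mk_uLift]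
  have : #(ℕ → Bool) = 𝔠 := by
    simp [← two_power_aleph0]
  rw [this, lift_continuum]

/-- An infinite Hausdorff pseudocompact group has at least `𝔠` points. -/
theorem continuum_le_group {G : Type u} [AddCommGroup G] [Infinite G] [TopologicalSpace G]
    [IsTopologicalAddGroup G] [T2Space G] (hX : Feebly G) : 𝔠 ≤ #G := by
  refine continuum_le hX fun x hx => ?_
  have hd : ∀ y : G, IsOpen {y} := by
    intro y
    have h1 : IsOpen ((fun z => z + (x - y)) ⁻¹' {x}) := hx.preimage (continuous_add_const _)
    have h2 : (fun z => z + (x - y)) ⁻¹' {x} = {y} := by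
      ext z
      simp only [mem_preimage, mem_singleton_iff]
      constructor
      · intro h
        have := congrArg (fun t => t - (x - y)) h
        simpa using this
      · rintro rfl
        abel
    rwa [h2] at h1
  let e := Infinite.natEmbedding G
  obtain ⟨y, hy⟩ := hX (fun n => {e n}) (fun n => ⟨hd _, singleton_nonempty _⟩)
  have h1 := hy {y} (hd y) rfl
  refine h1 (Set.Subsingleton.finite ?_)
  rintro m ⟨z, hz1, hz2⟩ n ⟨w, hw1, hw2⟩
  apply e.injective
  have a1 : z = y := hz1
  have a2 : w = y := hw1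
  have a3 : z = e m := hz2
  have a4 : w = e n := hw2
  rw [← a3, ← a4, a1, a2]

end Pool.Agent.Q307.SPB
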