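import Pool.Agent.Q307.SPB.Feeble

/-!
# A Boolean group of cardinality at most `𝔠` with a topology which is pseudocompact (even
# sequentially) and not selectively pseudocompact
-/

set_option autoImplicit false

universe u

namespace Pool.Agent.Q307.SPB

open Topology Filter Set Cardinal

/-- The index set of the basis. -/
abbrev E : Type := ℝ

/-- The free Boolean group. -/
abbrev F : Type := E →₀ ZMod 2

/-- The index set of the coordinates: a point and a sequence which are separated by a linear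
functional. -/
abbrev I : Type := {p : F × (ℕ → F) // ∃ Λ : F →ₗ[ZMod 2] ZMod 2, Λ p.1 = 0 ∧ ∀ n, Λ (p.2 n) = 1}

theorem mk_F : #F = 𝔠 := by
  rw [mk_finsupp_lift_of_infinite]
  have h1 : #E = 𝔠 := mk_real
  have h2 : ((2 : ℕ) : Cardinal.{0}) ≤ 𝔠 := (nat_lt_aleph0 2).le.trans aleph0_le_continuum
  simp only [lift_id, h1]
  refine max_eq_left ?_
  simpa using h2

theorem mk_I_le : #I ≤ 𝔠 := by
  refine (mk_subtype_le _).trans ?_
  have h1 : #(ℕ → F) = 𝔠 ^ ℵ₀ := by
    rw [mk_arrow]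
    simp only [mk_eq_aleph0, lift_aleph0, lift_id, mk_F]
  rw [mk_prod, h1, continuum_power_aleph0]
  simp only [lift_id, mk_F]
  rw [continuum_mul_self]

theorem exists_dec : ∃ dec : E → (ℕ → I) × (ℕ → ZMod 2), ∀ p, ¬ (dec ⁻¹' {p}).Countable := by
  have h1 : #(((ℕ → I) × (ℕ → ZMod 2)) × ℝ) ≤ #E := by
    have hI : #(ℕ → I) ≤ 𝔠 := by
      rw [mk_arrow]
      simp only [mk_eq_aleph0, lift_aleph0, lift_id]
      calc #I ^ ℵ₀ ≤ 𝔠 ^ ℵ₀ := power_le_power_right mk_I_le
        _ = 𝔠 := continuum_power_aleph0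
    have h2 : #(ℕ → ZMod 2) ≤ 𝔠 := by
      rw [mk_arrow]
      simp only [mk_eq_aleph0, lift_aleph0, lift_id]
      calc #(ZMod 2) ^ ℵ₀ ≤ 𝔠 ^ ℵ₀ := power_le_power_right
            ((mk_le_aleph0).trans aleph0_le_continuum)
        _ = 𝔠 := continuum_power_aleph0
    rw [mk_prod, mk_prod]
    simp only [lift_id, mk_real]
    calc #(ℕ → I) * #(ℕ → ZMod 2) * 𝔠 ≤ 𝔠 * 𝔠 * 𝔠 :=
          mul_le_mul' (mul_le_mul' hI h2) le_rfl
      _ = 𝔠 := by rw [continuum_mul_self, continuum_mul_self]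
  obtain ⟨g⟩ := h1
  have hne : Nonempty (((ℕ → I) × (ℕ → ZMod 2)) × ℝ) := by
    refine ⟨((fun _ => ⟨(0, fun _ => Finsupp.single 0 1),
      Finsupp.linearCombination (ZMod 2) (fun _ => 1), by simp, fun _ => by simp⟩), 0), 0⟩
  refine ⟨fun e => (Function.invFun g e).1, fun p hcount => ?_⟩
  have h3 : (range fun r : ℝ => g (p, r)).Countable := by
    refine hcount.mono ?_
    rintro _ ⟨r, rfl⟩
    show (Function.invFun g (g (p, r))).1 = p
    rw [Function.leftInverse_invFun g.injective]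
  have h4 : Function.Injective fun r : ℝ => g (p, r) := fun r s h =>
    congrArg Prod.snd (g.injective h)
  have h5 : Countable ℝ := by
    have := h3.to_subtype
    exact Function.Injective.countable (f := fun r => (⟨g (p, r), mem_range_self r⟩ :
      range fun r : ℝ => g (p, r))) (fun a b h => h4 (congrArg Subtype.val h))
  exact not_countable (α := ℝ) h5

theorem lc_eq (Λ : F →ₗ[ZMod 2] ZMod 2) (x : F) :
    Finsupp.linearCombination (ZMod 2) (fun α => Λ (Finsupp.single α 1)) x = Λ x := by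
  have : Finsupp.linearCombination (ZMod 2) (fun α => Λ (Finsupp.single α 1)) = Λ := by
    refine Finsupp.lhom_ext' fun α => LinearMap.ext_ring ?_
    simp
  rw [this]

/-- The coordinates. -/
theorem exists_phi : ∃ φ : I → E → ZMod 2,
    (∀ ξ : I, Finsupp.linearCombination (ZMod 2) (φ ξ) ξ.1.1 = 0 ∧
      ∀ n, Finsupp.linearCombination (ZMod 2) (φ ξ) (ξ.1.2 n) = 1) ∧
    ∀ S : Set I, S.Countable → ∀ v : I → ZMod 2, ∃ α, ∀ ξ ∈ S, φ ξ α = v ξ := by
  classical
  obtain ⟨dec, hdec⟩ := exists_dec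
  choose Λ hΛ using fun ξ : I => ξ.2
  let ψ : I → E → ZMod 2 := fun ξ α => Λ ξ (Finsupp.single α 1)
  let A : I → Set E := fun ξ => (ξ.1.1.support : Set E) ∪ ⋃ n, ((ξ.1.2 n).support : Set E)
  have hA : ∀ ξ, (A ξ).Countable := fun ξ =>
    (Finset.countable_toSet _).union (countable_iUnion fun n => Finset.countable_toSet _)
  let φ : I → E → ZMod 2 := fun ξ α => if α ∈ A ξ then ψ ξ α else
    if h : ∃ k, (dec α).1 k = ξ then (dec α).2 h.choose else 0
  have hφ : ∀ ξ (x : F), (x.support : Set E) ⊆ A ξ →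
      Finsupp.linearCombination (ZMod 2) (φ ξ) x = Λ ξ x := by
    intro ξ x hx
    rw [← lc_eq (Λ ξ) x, Finsupp.linearCombination_apply, Finsupp.linearCombination_apply,
      Finsupp.sum, Finsupp.sum]
    refine Finset.sum_congr rfl fun α hα => ?_
    have : α ∈ A ξ := hx hα
    simp only [φ, ψ, if_pos this]
  refine ⟨φ, fun ξ => ⟨?_, fun n => ?_⟩, fun S hS v => ?_⟩
  · rw [hφ ξ _ subset_union_left]
    exact (hΛ ξ).1
  · rw [hφ ξ _ ((subset_iUnion (fun n => ((ξ.1.2 n).support : Set E)) n).trans subset_union_right)]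
    exact (hΛ ξ).2 n
  · rcases S.eq_empty_or_nonempty with rfl | hne
    · exact ⟨0, by simp⟩
    obtain ⟨C, rfl⟩ := hS.exists_eq_range hne
    have h1 : (⋃ k, A (C k)).Countable := countable_iUnion fun k => hA _
    have h2 : (dec ⁻¹' {(C, fun k => v (C k))} \ ⋃ k, A (C k)).Nonempty := by
      by_contra hcon
      rw [not_nonempty_iff_eq_empty, sdiff_eq_empty] at hcon
      exact hdec _ (h1.mono hcon)
    obtain ⟨α, hα1, hα2⟩ := h2
    refine ⟨α, ?_⟩
    rintro _ ⟨k, rfl⟩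
    have h3 : α ∉ A (C k) := fun h => hα2 (mem_iUnion.mpr ⟨k, h⟩)
    have hd : dec α = (C, fun k => v (C k)) := hα1
    have h4 : ∃ j, (dec α).1 j = C k := ⟨k, by rw [hd]⟩
    show (if α ∈ A (C k) then ψ (C k) α else
      if h : ∃ j, (dec α).1 j = C k then (dec α).2 h.choose else 0) = v (C k)
    rw [if_neg h3, dif_pos h4]
    have h5 := h4.choose_spec
    have h6 : C h4.choose = C k := (congrFun (congrArg Prod.fst hd) h4.choose).symm.trans h5
    exact (congrFun (congrArg Prod.snd hd) h4.choose).trans (congrArg v h6)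

section

variable (φ : I → E → ZMod 2)

/-- The group. -/
noncomputable def Grp : AddSubgroup (I → ZMod 2) :=
  (LinearMap.pi fun ξ : I => Finsupp.linearCombination (ZMod 2) (φ ξ)).toAddMonoidHom.range

variable {φ}

theorem mem_Grp {g : I → ZMod 2} : g ∈ Grp φ ↔
    ∃ f : F, ∀ ξ, Finsupp.linearCombination (ZMod 2) (φ ξ) f = g ξ := by
  constructor
  · rintro ⟨f, hf⟩
    exact ⟨f, fun ξ => congrFun hf ξ⟩
  · rintro ⟨f, hf⟩
    exact ⟨f, funext hf⟩

theorem mk_Grp_le : #(Grp φ) ≤ 𝔠 := by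
  rw [← mk_F]
  refine mk_le_of_surjective (f := fun f : F => (⟨fun ξ => Finsupp.linearCombination (ZMod 2)
    (φ ξ) f, mem_Grp.mpr ⟨f, fun _ => rfl⟩⟩ : Grp φ)) ?_
  rintro ⟨g, hg⟩
  obtain ⟨f, hf⟩ := mem_Grp.mp hg
  exact ⟨f, Subtype.ext (funext hf)⟩

theorem add_self (g : Grp φ) : g + g = 0 := by
  apply Subtype.ext
  funext ξ
  show g.1 ξ + g.1 ξ = 0
  exact CharTwo.add_self_eq_zero _

variable (h1 : ∀ ξ : I, Finsupp.linearCombination (ZMod 2) (φ ξ) ξ.1.1 = 0 ∧
      ∀ n, Finsupp.linearCombination (ZMod 2) (φ ξ) (ξ.1.2 n) = 1)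
  (h2 : ∀ S : Set I, S.Countable → ∀ v : I → ZMod 2, ∃ α, ∀ ξ ∈ S, φ ξ α = v ξ)

include h2 in
theorem dense (S : Set I) (hS : S.Countable) (v : I → ZMod 2) :
    ∃ g : Grp φ, ∀ ξ ∈ S, g.1 ξ = v ξ := by
  obtain ⟨α, hα⟩ := h2 S hS v
  refine ⟨⟨fun ξ => φ ξ α, mem_Grp.mpr ⟨Finsupp.single α 1, fun ξ => by simp⟩⟩, hα⟩

theorem basic {U : Set (Grp φ)} (hU : IsOpen U) {p : Grp φ} (hp : p ∈ U) :
    ∃ D : Finset I, ∀ g : Grp φ, (∀ ξ ∈ D, g.1 ξ = p.1 ξ) → g ∈ U := by
  obtain ⟨V, hV, rfl⟩ := isOpen_induced_iff.mp hU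
  obtain ⟨D, u, hu, hDV⟩ := isOpen_pi_iff.mp hV p.1 hp
  refine ⟨D, fun g hg => hDV ?_⟩
  intro ξ hξ
  rw [hg ξ hξ]
  exact (hu ξ hξ).2

/-- `X` is sequentially pseudocompact. -/
def SeqPs (X : Type u) [TopologicalSpace X] : Prop :=
  ∀ U : ℕ → Set X, (∀ n, IsOpen (U n) ∧ (U n).Nonempty) →
    ∃ (J : Set ℕ) (x : X), J.Infinite ∧
      ∀ W : Set X, IsOpen W → x ∈ W → {n ∈ J | W ∩ U n = ∅}.Finite

include h2 in
theorem seqPs : SeqPs (Grp φ) := by
  classical
  intro U hU
  have hp : ∀ n, ∃ (p : Grp φ) (D : Finset I), ∀ g : Grp φ, (∀ ξ ∈ D, g.1 ξ = p.1 ξ) → g ∈ U n := by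
    intro n
    obtain ⟨p, hp⟩ := (hU n).2
    obtain ⟨D, hD⟩ := basic (hU n).1 hp
    exact ⟨p, D, hD⟩
  choose p D hD using hp
  set S : Set I := ⋃ n, (D n : Set I) with hS
  have hSc : S.Countable := countable_iUnion fun n => Finset.countable_toSet _
  have : Countable S := hSc.to_subtype
  obtain ⟨y, τ, hτ, hlim⟩ := CompactSpace.tendsto_subseq (fun n => fun ξ : S => (p n).1 ξ.1)
  obtain ⟨x, hx⟩ := dense h2 S hSc (fun ξ => if h : ξ ∈ S then y ⟨ξ, h⟩ else 0)
  have hx' : ∀ ξ : S, x.1 ξ.1 = y ξ := by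
    intro ξ
    rw [hx ξ.1 ξ.2, dif_pos ξ.2]
  refine ⟨range τ, x, infinite_range_of_injective hτ.injective, fun W hW hxW => ?_⟩
  obtain ⟨B, hB⟩ := basic hW hxW
  have hev : ∀ᶠ n in atTop, ∀ ξ ∈ B, ξ ∈ S → (p (τ n)).1 ξ = x.1 ξ := by
    refine (eventually_all_finset B).mpr ?_
    intro ξ _
    by_cases h : ξ ∈ S
    · have h3 := (tendsto_pi_nhds.mp hlim) ⟨ξ, h⟩
      have h4 : ∀ᶠ n in atTop, (p (τ n)).1 ξ = y ⟨ξ, h⟩ := by
        have := h3.eventually (IsOpen.mem_nhds (isOpen_discrete {y ⟨ξ, h⟩}) rfl)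
        exact this
      filter_upwards [h4] with n hn _
      rw [hn, ← hx' ⟨ξ, h⟩]
    · exact Eventually.of_forall fun n hn => absurd hn h
  obtain ⟨N, hN⟩ := eventually_atTop.mp hev
  refine ((finite_lt_nat N).image τ).subset ?_
  rintro _ ⟨⟨n, rfl⟩, hn⟩
  by_contra hcon
  have hn' : N ≤ n := by
    by_contra hlt
    exact hcon ⟨n, not_le.mp hlt, rfl⟩
  obtain ⟨g, hg⟩ := dense h2 (↑(D (τ n)) ∪ ↑B) ((Finset.countable_toSet _).union
    (Finset.countable_toSet _)) (fun ξ => if ξ ∈ D (τ n) then (p (τ n)).1 ξ else x.1 ξ)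
  have hgU : g ∈ U (τ n) := by
    apply hD
    intro ξ hξ
    rw [hg ξ (Or.inl hξ), if_pos hξ]
  have hgW : g ∈ W := by
    apply hB
    intro ξ hξ
    rw [hg ξ (Or.inr hξ)]
    by_cases h : ξ ∈ D (τ n)
    · rw [if_pos h]
      exact hN n hn' ξ hξ (mem_iUnion.mpr ⟨_, h⟩)
    · rw [if_neg h]
  have : g ∈ W ∩ U (τ n) := ⟨hgW, hgU⟩
  rw [hn] at this
  exact this

theorem infinite_I : Infinite I := by
  refine Infinite.of_injective (fun r : ℝ => (⟨(0, fun _ => Finsupp.single r 1),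
      Finsupp.linearCombination (ZMod 2) (fun _ => 1), by simp, fun _ => by simp⟩ : I)) ?_
  intro r s h
  have h1 := congrFun (congrArg Prod.snd (congrArg Subtype.val h)) 0
  exact Finsupp.single_left_injective one_ne_zero h1

/-- A triangular sequence is linearly independent. -/
theorem independent (e : ℕ → F →ₗ[ZMod 2] ZMod 2) (f : ℕ → F)
    (h0 : ∀ n, ∀ i < n, e i (f n) = 0) (h1 : ∀ n, e n (f n) = 1) :
    LinearIndependent (ZMod 2) f := by
  classical
  rw [linearIndependent_iff]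
  intro l hl
  by_contra hne
  have hsup : l.support.Nonempty := Finsupp.support_nonempty_iff.mpr hne
  set m := l.support.min' hsup with hm
  have hmem : m ∈ l.support := Finset.min'_mem _ _
  have h2 : e m (Finsupp.linearCombination (ZMod 2) f l) = 0 := by rw [hl, map_zero]
  rw [Finsupp.linearCombination_apply, Finsupp.sum, map_sum, Finset.sum_eq_single m] at h2
  · rw [map_smul, h1, smul_eq_mul, mul_one] at h2
    exact (Finsupp.mem_support_iff.mp hmem) h2
  · intro n hn hnm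
    have hlt : m < n := lt_of_le_of_ne (Finset.min'_le _ _ hn) (Ne.symm hnm)
    rw [map_smul, h0 n m hlt, smul_zero]
  · intro h
    exact absurd hmem h

/-- Every point is separated from a final part of an independent sequence. -/
theorem separate (f : ℕ → F) (hf : LinearIndependent (ZMod 2) f) (c : F) :
    ∃ N, ∃ Λ : F →ₗ[ZMod 2] ZMod 2, Λ c = 0 ∧ ∀ n, Λ (f (N + n)) = 1 := by
  classical
  obtain ⟨P, hP⟩ := LinearMap.exists_extend hf.repr
  have hP1 : ∀ n, P (f n) = Finsupp.single n 1 := by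
    intro n
    have h := LinearMap.congr_fun hP ⟨f n, Submodule.subset_span (mem_range_self n)⟩
    rw [LinearMap.comp_apply, Submodule.subtype_apply] at h
    rw [h]
    exact hf.repr_eq_single n _ rfl
  obtain ⟨N, hN⟩ := (P c).support.exists_nat_subset_range
  refine ⟨N, (Finsupp.linearCombination (ZMod 2) (fun n => if N ≤ n then (1 : ZMod 2) else 0)).comp P,
    ?_, fun n => ?_⟩
  · rw [LinearMap.comp_apply, Finsupp.linearCombination_apply, Finsupp.sum]
    refine Finset.sum_eq_zero fun n hn => ?_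
    have := Finset.mem_range.mp (hN hn)
    rw [if_neg (by omega), smul_zero]
  · rw [LinearMap.comp_apply, hP1, Finsupp.linearCombination_single, if_pos (by omega)]
    simp

include h1 h2 in
theorem not_selective : ¬ SelectivelyPseudocompact (Grp φ) := by
  intro hsel
  have := infinite_I
  set ξ := Infinite.natEmbedding I with hξ
  obtain ⟨x, hx, y, hy⟩ := hsel (fun n => {g | (∀ i < n, g.1 (ξ i) = 0) ∧ g.1 (ξ n) = 1}) (by
    intro n
    constructor
    · have hev : ∀ i : I, Continuous fun g : Grp φ => g.1 i := fun i =>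
        (continuous_apply i).comp continuous_subtype_val
      have h3 : {g : Grp φ | (∀ i < n, g.1 (ξ i) = 0) ∧ g.1 (ξ n) = 1} =
          (⋂ i ∈ Iio n, (fun g : Grp φ => g.1 (ξ i)) ⁻¹' {0}) ∩
          (fun g : Grp φ => g.1 (ξ n)) ⁻¹' {1} := by
        ext g
        simp
      rw [h3]
      refine IsOpen.inter ((finite_Iio n).isOpen_biInter fun i _ =>
        (isOpen_discrete _).preimage (hev _)) ((isOpen_discrete _).preimage (hev _))
    · classical
      obtain ⟨g, hg⟩ := dense h2 (range ξ) (countable_range _) (fun i => if i = ξ n then 1 else 0)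
      refine ⟨g, fun i hi => ?_, ?_⟩
      · rw [hg _ (mem_range_self i), if_neg]
        exact fun h => (ne_of_lt hi) (ξ.injective h)
      · rw [hg _ (mem_range_self n), if_pos rfl])
  have hrep : ∀ n, ∃ f : F, ∀ i, Finsupp.linearCombination (ZMod 2) (φ i) f = (x n).1 i :=
    fun n => mem_Grp.mp (x n).2
  choose f hf using hrep
  obtain ⟨c, hc⟩ := mem_Grp.mp y.2
  have hind : LinearIndependent (ZMod 2) f := by
    refine independent (fun i => Finsupp.linearCombination (ZMod 2) (φ (ξ i))) f ?_ ?_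
    · intro n i hi
      rw [hf]
      exact (hx n).1 i hi
    · intro n
      rw [hf]
      exact (hx n).2
  obtain ⟨N, Λ, hΛ0, hΛ1⟩ := separate f hind c
  set η : I := ⟨(c, fun n => f (N + n)), Λ, hΛ0, hΛ1⟩ with hη
  have h3 := hy {g : Grp φ | g.1 η = 0}
    ((isOpen_discrete {0}).preimage ((continuous_apply η).comp continuous_subtype_val)) (by
      show y.1 η = 0
      rw [← hc]
      exact (h1 η).1)
  obtain ⟨n, hn, hnN⟩ := h3.exists_gt N
  have h4 : (x n).1 η = 0 := hn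
  have h5 := (h1 η).2 (n - N)
  have h6 : η.1.2 (n - N) = f n := by
    show f (N + (n - N)) = f n
    congr 1
    omega
  rw [h6, hf, h4] at h5
  exact absurd h5 (by decide)

end

/-- There is a Boolean group of size at most `𝔠` which is sequentially pseudocompact and not
selectively pseudocompact. -/
theorem exists_group : ∃ (H : Type) (_ : AddCommGroup H) (_ : TopologicalSpace H)
    (_ : IsTopologicalAddGroup H) (_ : T2Space H), (∀ g : H, g + g = 0) ∧ #H ≤ 𝔠 ∧
    SeqPs H ∧ ¬ SelectivelyPseudocompact H := by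
  obtain ⟨φ, h1, h2⟩ := exists_phi
  exact ⟨Grp φ, inferInstance, inferInstance, inferInstance, inferInstance, add_self, mk_Grp_le,
    seqPs h2, not_selective h1 h2⟩

end Pool.Agent.Q307.SPB
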