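import Pool.Agent.Q307.SPB.Group

/-!
# Every infinite pseudocompact Boolean group has a pseudocompact group topology which is not
# selectively pseudocompact
-/

set_option autoImplicit false

universe u v

namespace Pool.Agent.Q307.SPB

open Topology Filter Set Cardinal

theorem pseudocompact_of_feebly {X : Type u} [TopologicalSpace X] (hX : Feebly X) :
    Pseudocompact X := by
  intro f hf
  by_contra hcon
  push Not at hcon
  have habs : Continuous fun x => |f x| := hf.abs
  obtain ⟨x, hx⟩ := hX (fun n => {x | (n : ℝ) < |f x|}) (fun n =>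
    ⟨isOpen_lt continuous_const habs, hcon n⟩)
  have h1 := hx {y | |f y| < |f x| + 1} (isOpen_lt habs continuous_const) (by simp)
  obtain ⟨N, hN⟩ := exists_nat_gt (|f x| + 1)
  obtain ⟨n, ⟨z, hz1, hz2⟩, hnN⟩ := h1.exists_gt N
  have h2 : |f z| < |f x| + 1 := hz1
  have h3 : (n : ℝ) < |f z| := hz2
  have h4 : (N : ℝ) < n := by exact_mod_cast hnN
  linarith

theorem feebly_prod {X : Type u} {Y : Type v} [TopologicalSpace X] [TopologicalSpace Y]
    (hX : Feebly X) (hY : SeqPs Y) : Feebly (X × Y) := by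
  intro U hU
  have hbox : ∀ n, ∃ (A : Set X) (B : Set Y), (IsOpen A ∧ A.Nonempty) ∧ (IsOpen B ∧ B.Nonempty) ∧
      A ×ˢ B ⊆ U n := by
    intro n
    obtain ⟨⟨a, b⟩, hab⟩ := (hU n).2
    obtain ⟨A, B, hA, hB, haA, hbB, hsub⟩ := isOpen_prod_iff.mp (hU n).1 a b hab
    exact ⟨A, B, ⟨hA, a, haA⟩, ⟨hB, b, hbB⟩, hsub⟩
  choose A B hA hB hAB using hbox
  obtain ⟨J, y, hJ, hy⟩ := hY B hB
  obtain ⟨x, hx⟩ := hX (fun k => A (hJ.natEmbedding J k).1) (fun k => hA _)
  refine ⟨(x, y), fun W hW hxy => ?_⟩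
  obtain ⟨W1, W2, hW1, hW2, hx1, hy2, hsub⟩ := isOpen_prod_iff.mp hW x y hxy
  have h1 := hx W1 hW1 hx1
  have h2 := hy W2 hW2 hy2
  have hinj : Function.Injective fun k => (hJ.natEmbedding J k).1 := fun a b h =>
    (hJ.natEmbedding J).injective (Subtype.ext h)
  have h3 := (h1.image hinj.injOn).diff h2
  refine h3.mono ?_
  rintro n ⟨⟨k, ⟨a, ha1, ha2⟩, rfl⟩, hn⟩
  have h4 : (W2 ∩ B (hJ.natEmbedding J k).1).Nonempty := by
    rw [nonempty_iff_ne_empty]
    intro hemp
    exact hn ⟨(hJ.natEmbedding J k).2, hemp⟩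
  obtain ⟨b, hb1, hb2⟩ := h4
  exact ⟨(a, b), hsub ⟨ha1, hb1⟩, hAB _ ⟨ha2, hb2⟩⟩

theorem selective_of_prod {X : Type u} {Y : Type v} [TopologicalSpace X] [TopologicalSpace Y]
    [Nonempty X] (h : SelectivelyPseudocompact (X × Y)) : SelectivelyPseudocompact Y := by
  intro U hU
  obtain ⟨x, hx, y, hy⟩ := h (fun n => Set.univ ×ˢ U n) (fun n =>
    ⟨isOpen_univ.prod (hU n).1, univ_nonempty.prod (hU n).2⟩)
  refine ⟨fun n => (x n).2, fun n => (hx n).2, y.2, fun W hW hyW => ?_⟩
  refine (hy (Set.univ ×ˢ W) (isOpen_univ.prod hW) ⟨trivial, hyW⟩).mono ?_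
  intro n hn
  exact hn.2

theorem pseudocompact_of_homeomorph {X : Type u} {Y : Type v} [TopologicalSpace X]
    [TopologicalSpace Y] (e : X ≃ₜ Y) (h : Pseudocompact Y) : Pseudocompact X := by
  intro f hf
  obtain ⟨C, hC⟩ := h (f ∘ e.symm) (hf.comp e.symm.continuous)
  refine ⟨C, fun x => ?_⟩
  have := hC (e x)
  simpa using this

theorem selective_of_homeomorph {X : Type u} {Y : Type v} [TopologicalSpace X]
    [TopologicalSpace Y] (e : X ≃ₜ Y) (h : SelectivelyPseudocompact X) :
    SelectivelyPseudocompact Y := by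
  intro U hU
  obtain ⟨x, hx, y, hy⟩ := h (fun n => e ⁻¹' U n) (fun n =>
    ⟨(hU n).1.preimage e.continuous, (hU n).2.preimage e.surjective⟩)
  refine ⟨fun n => e (x n), hx, e y, fun W hW hyW => ?_⟩
  exact hy (e ⁻¹' W) (hW.preimage e.continuous) hyW

theorem card_basis {G : Type u} [AddCommGroup G] [Module (ZMod 2) G] [Infinite G] :
    Module.rank (ZMod 2) G = #G := by
  let b := Module.Free.chooseBasis (ZMod 2) G
  have hinf : Infinite (Module.Free.ChooseBasisIndex (ZMod 2) G) := by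
    by_contra hcon
    rw [not_infinite_iff_finite] at hcon
    have h0 := Module.Finite.of_basis b
    have : Finite G := Module.finite_of_finite (ZMod 2)
    exact not_finite G
  rw [← b.mk_eq_rank'']
  have h1 := mk_congr b.repr.toEquiv
  rw [h1, mk_finsupp_lift_of_infinite]
  have h2 : lift.{u} #(ZMod 2) ≤ lift.{0} #(Module.Free.ChooseBasisIndex (ZMod 2) G) := by
    rw [lift_id']
    refine le_trans ?_ (aleph0_le_mk _)
    rw [lift_le_aleph0]
    exact mk_le_aleph0
  rw [max_eq_left h2]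
  simp

theorem exists_equiv {G : Type u} [AddCommGroup G] [Infinite G] (hB : ∀ x : G, x + x = 0)
    {H : Type} [AddCommGroup H] (hH : ∀ x : H, x + x = 0) (hle : #H ≤ 𝔠) (hG : 𝔠 ≤ #G) :
    Nonempty (G ≃+ G × H) := by
  let _ : Module (ZMod 2) G := AddCommGroup.zmodModule (n := 2) (fun x => by rw [two_nsmul, hB])
  let _ : Module (ZMod 2) H := AddCommGroup.zmodModule (n := 2) (fun x => by rw [two_nsmul, hH])
  have h1 : Module.rank (ZMod 2) (G × H) = Module.rank (ZMod 2) G := by
    rw [rank_prod, card_basis]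
    have h2 : lift.{u} (Module.rank (ZMod 2) H) ≤ lift.{0} #G := by
      rw [lift_id']
      calc lift.{u} (Module.rank (ZMod 2) H) ≤ lift.{u} #H := lift_le.mpr (rank_le_card _ _)
        _ ≤ lift.{u} 𝔠 := lift_le.mpr hle
        _ = 𝔠 := lift_continuum
        _ ≤ #G := hG
    rw [add_eq_left _ h2]
    · simp
    · simp
  have h3 : Nonempty (G ≃ₗ[ZMod 2] G × H) := nonempty_linearEquiv_of_rank_eq h1.symm
  obtain ⟨e⟩ := h3
  exact ⟨e.toAddEquiv⟩

theorem main {G : Type u} [AddCommGroup G] [Infinite G] (hB : ∀ x : G, x + x = 0)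
    (hG : ∃ _ : TopologicalSpace G, IsTopologicalAddGroup G ∧ T2Space G ∧ Pseudocompact G) :
    ∃ _ : TopologicalSpace G, IsTopologicalAddGroup G ∧ T2Space G ∧ Pseudocompact G ∧
      ¬ SelectivelyPseudocompact G := by
  obtain ⟨H, i1, i2, i3, i4, hH, hle, hseq, hnot⟩ := exists_group
  obtain ⟨t, ht1, ht2, ht3⟩ := hG
  have hfe : Feebly G := by
    let _ : UniformSpace G := IsTopologicalAddGroup.rightUniformSpace G
    exact feebly_of_pseudocompact ht3
  have hcard : 𝔠 ≤ #G := continuum_le_group hfe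
  obtain ⟨e⟩ := exists_equiv hB hH hle hcard
  have hps : Pseudocompact (G × H) := pseudocompact_of_feebly (feebly_prod hfe hseq)
  have hns : ¬ SelectivelyPseudocompact (G × H) := fun h => hnot (selective_of_prod h)
  have hgr : IsTopologicalAddGroup (G × H) := inferInstance
  have hT2 : T2Space (G × H) := inferInstance
  generalize (instTopologicalSpaceProd : TopologicalSpace (G × H)) = tp at hps hns hgr hT2
  clear hfe ht1 ht2 ht3
  clear t
  let t' : TopologicalSpace G := TopologicalSpace.induced e tp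
  have hind : @Topology.IsInducing G (G × H) t' tp e := ⟨rfl⟩
  let hom : @Homeomorph G (G × H) t' tp := e.toEquiv.toHomeomorphOfIsInducing hind
  refine ⟨t', ?_, ?_, ?_, ?_⟩
  · exact topologicalAddGroup_induced e.toAddMonoidHom
  · exact @T2Space.of_injective_continuous G (G × H) t' tp hT2 e e.injective hind.continuous
  · exact @pseudocompact_of_homeomorph G (G × H) t' tp hom hps
  · exact fun h => hns (@selective_of_homeomorph G (G × H) t' tp hom h)

end Pool.Agent.Q307.SPB
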